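import Pool.Agent.Helper73.MI.Stmts

/-!
# Row DER of project MP_a2630c_MI: derivatives of the base points
-/

open MeasureTheory Set Metric Real Filter Topology
open scoped RealInnerProductSpace ENNReal
open Pool.Agent.Helper16.Buoy (E)
open Pool.Agent.Helper73.SY (Dat)
open Pool.Agent.Helper79.SY (WW)

namespace Pool.Agent.Helper56.MI

open Pool.Agent.Helper73.MI

variable {n : ℕ} {e : E n}

theorem inner_eW (v : WW e) : inner ℝ e (v : E n) = (0 : ℝ) :=
  Submodule.mem_orthogonal_singleton_iff_inner_right.1 v.2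

theorem norm_ev (he : ‖e‖ = 1) (v : WW e) : ‖e + (v : E n)‖ = nn v := by
  unfold nn
  rw [← Real.sqrt_sq (norm_nonneg (e + (v : E n)))]
  congr 1
  rw [@norm_add_sq_real, inner_eW, he]
  simp

theorem nn_pos' (v : WW e) : 0 < nn v := Real.sqrt_pos.2 (by positivity)

theorem ev_ne (he : ‖e‖ = 1) (v : WW e) : e + (v : E n) ≠ 0 := by
  rw [← norm_pos_iff, norm_ev he]
  exact nn_pos' v

theorem inner_pj (w : WW e) (x : E n) : inner ℝ w (pj e x) = (inner ℝ (w : E n) x : ℝ) := by
  unfold pj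
  rw [Submodule.inner_orthogonalProjectionOnto_eq_of_mem_left]

theorem der (hpos : S_pos) : S_der := by
  intro n K δ lam X t e hD he
  obtain ⟨hsym, hort, hhom, c, hc, hlow⟩ := hpos hD
  have hX : ∀ v : WW e, HasFDerivAt (fun v : WW e => X (e + (v : E n)))
      ((fderiv ℝ X (e + (v : E n))).comp (WW e).subtypeL) v := by
    intro v
    have h1 : HasFDerivAt X (fderiv ℝ X (e + (v : E n))) (e + (v : E n)) :=
      ((hD.XC1 _ (ev_ne he v)).differentiableAt (by norm_num)).hasFDerivAt
    have h2 : HasFDerivAt (fun v : WW e => e + (v : E n)) (WW e).subtypeL v :=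
      (WW e).subtypeL.hasFDerivAt.const_add e
    exact h1.comp v h2
  refine ⟨fun v => ?_, ?_, fun v w w' => ?_, fun v => ?_, c, hc, fun v w => ?_⟩
  · exact (pj e).hasFDerivAt.comp v (hX v)
  · rw [continuous_iff_continuousAt]
    intro v
    have h1 : ContinuousAt (fderiv ℝ X) (e + (v : E n)) :=
      ((hD.XC1 _ (ev_ne he v)).fderiv_right (m := 0) (by norm_num)).continuousAt
    have h2 : ContinuousAt (fun v : WW e => e + (v : E n)) v := by fun_prop
    have h3 : ContinuousAt (fun v : WW e => fderiv ℝ X (e + (v : E n))) v :=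
      ContinuousAt.comp (g := fderiv ℝ X) h1 h2
    have h4 : ContinuousAt (fun v : WW e =>
        ((fderiv ℝ X (e + (v : E n))).comp (WW e).subtypeL)) v :=
      h3.clm_comp continuousAt_const
    exact continuousAt_const.clm_comp h4
  · unfold PV
    simp only [ContinuousLinearMap.comp_apply]
    rw [inner_pj, inner_pj]
    exact hsym _ _ _ (ev_ne he v)
  · have h1 : HasFDerivAt (xx X e) ((innerSL ℝ e).comp
        ((fderiv ℝ X (e + (v : E n))).comp (WW e).subtypeL)) v :=
      (innerSL ℝ e).hasFDerivAt.comp v (hX v)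
    refine h1.congr_fderiv ?_
    ext w
    simp only [PV, ContinuousLinearMap.comp_apply, neg_apply,
      innerSL_apply_apply]
    rw [inner_pj]
    have h2 := hort (e + (v : E n)) ((WW e).subtypeL w) (ev_ne he v)
    rw [inner_add_left] at h2
    linarith
  · -- lower bound
    set u : E n := e + (v : E n) with hu
    have hn := nn_pos' v
    set u1 : E n := (nn v)⁻¹ • u with hu1
    have hu1n : ‖u1‖ = 1 := by
      rw [hu1, norm_smul, norm_inv, Real.norm_of_nonneg hn.le, hu, norm_ev he]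
      exact inv_mul_cancel₀ hn.ne'
    have hu1ne : u1 ≠ 0 := by
      rw [← norm_pos_iff, hu1n]; norm_num
    have huu : u = nn v • u1 := by
      rw [hu1, smul_smul, mul_inv_cancel₀ hn.ne', one_smul]
    have hself : fderiv ℝ X u1 u1 = 0 := by
      have h1 := hsym u1 (fderiv ℝ X u1 u1) u1 hu1ne
      rw [hort u1 _ hu1ne] at h1
      exact inner_self_eq_zero.1 h1
    set a : ℝ := inner ℝ u1 (w : E n) with ha
    set wp : E n := (w : E n) - a • u1 with hwp
    have hwpo : inner ℝ u1 wp = (0 : ℝ) := by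
      rw [hwp, inner_sub_right, inner_smul_right, real_inner_self_eq_norm_sq, hu1n]
      simp [ha]
    have h1 : (inner ℝ (w : E n) (fderiv ℝ X u1 (w : E n)) : ℝ) =
        inner ℝ wp (fderiv ℝ X u1 wp) := by
      have h2 : (w : E n) = wp + a • u1 := by rw [hwp]; abel
      have h3 : fderiv ℝ X u1 (w : E n) = fderiv ℝ X u1 wp := by
        rw [h2, map_add, map_smul, hself, smul_zero, add_zero]
      rw [h3]
      conv_lhs => rw [h2]
      rw [inner_add_left, inner_smul_left, hort u1 _ hu1ne]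
      simp
    have h2 := hlow u1 wp hu1n hwpo
    have h3 : a = (nn v)⁻¹ * inner ℝ v w := by
      rw [ha, hu1, inner_smul_left, hu, inner_add_left, inner_eW]
      simp
    have h4 : ‖wp‖ ^ 2 = ‖w‖ ^ 2 - a ^ 2 := by
      rw [hwp, @norm_sub_sq_real, inner_smul_right, norm_smul, hu1n, real_inner_comm, ← ha]
      rw [mul_one, Real.norm_eq_abs, sq_abs]
      simp only [Submodule.coe_norm]
      ring
    have hnsq : nn v ^ 2 = 1 + ‖v‖ ^ 2 := Real.sq_sqrt (by positivity)
    have h5 : ‖w‖ ^ 2 ≤ nn v ^ 2 * ‖wp‖ ^ 2 := by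
      have h6 : nn v ^ 2 * a ^ 2 = (inner ℝ v w : ℝ) ^ 2 := by
        rw [h3]; field_simp
      have h7 : (inner ℝ v w : ℝ) ^ 2 ≤ ‖v‖ ^ 2 * ‖w‖ ^ 2 := by
        have := abs_real_inner_le_norm v w
        rw [← sq_abs, ← mul_pow]
        exact pow_le_pow_left₀ (abs_nonneg _) this 2
      rw [h4, mul_sub, h6, hnsq]
      nlinarith
    have h6 : (inner ℝ w (PV X e v w) : ℝ) =
        (nn v)⁻¹ * inner ℝ (w : E n) (fderiv ℝ X u1 (w : E n)) := by
      unfold PV
      simp only [ContinuousLinearMap.comp_apply]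
      rw [inner_pj]
      have h7 := hhom u1 (w : E n) (nn v) hu1ne hn
      rw [← huu] at h7
      have h8 : (fderiv ℝ X (e + (v : E n))) ((WW e).subtypeL w) =
          (nn v)⁻¹ • (fderiv ℝ X u1) (w : E n) := h7
      rw [h8, inner_smul_right]
    rw [h6, h1]
    have h7 : nn v ^ 3 * ((nn v)⁻¹ * inner ℝ wp (fderiv ℝ X u1 wp)) =
        nn v ^ 2 * inner ℝ wp (fderiv ℝ X u1 wp) := by
      field_simp
    rw [h7]
    calc c * ‖w‖ ^ 2 ≤ c * (nn v ^ 2 * ‖wp‖ ^ 2) := mul_le_mul_of_nonneg_left h5 hc.le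
      _ = nn v ^ 2 * (c * ‖wp‖ ^ 2) := by ring
      _ ≤ _ := mul_le_mul_of_nonneg_left h2 (by positivity)

end Pool.Agent.Helper56.MI

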