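import Pool.Agent.Helper73.MI.Stmts

/-!
# Rows FD and BD of project MP_a2630c_MI: derivatives of `F`, bounds
-/

open MeasureTheory Set Metric Real Filter Topology
open scoped RealInnerProductSpace ENNReal

universe w

namespace Pool.Agent.Helper56.MI

open Pool.Agent.Helper73.MI

theorem fd : S_fd.{w} := by
  intro V _ _ _ _ _ D F Y ξ τ P lam vv Pi hM hI
  have hxv : ∀ v, HasFDerivAt (fun y => ξ (vv y)) (-(innerSL ℝ v)) (Y v) := by
    intro v
    have h1 : HasFDerivAt ξ (-(innerSL ℝ v).comp (P v)) (vv (Y v)) := by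
      rw [hI.left]; exact hM.xder v
    have h2 := h1.comp (Y v) (hI.der v)
    have h3 : (-(innerSL ℝ v).comp (P v)).comp (Pi v) = -(innerSL ℝ v) := by
      ext w; simp [hI.PPi]
    rw [h3] at h2; exact h2
  have hF : ∀ v, F =ᶠ[𝓝 (Y v)] fun y => ξ (vv y) ^ 2 := by
    intro v
    filter_upwards [hM.Dopen.mem_nhds (hM.Ymem v)] with y hy
    have := hM.FY (vv y)
    rw [hI.right y hy] at this
    exact this
  constructor
  · intro v
    have h1 := (hxv v).pow 2
    have h2 := h1.congr_of_eventuallyEq (hF v)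
    have h3 : (2 • ξ (vv (Y v)) ^ (2 - 1)) • -(innerSL ℝ) v = (-2 * ξ v) • innerSL ℝ v := by
      ext w
      simp [hI.left]
    rw [h3] at h2
    exact h2
  · intro a v
    have h1 := (hxv v).const_mul (-2 : ℝ)
    have h2 : HasFDerivAt (fun y => (inner ℝ (vv y) a : ℝ)) ((innerSL ℝ a).comp (Pi v)) (Y v) := by
      have h3 := (innerSL ℝ a).hasFDerivAt.comp (Y v) (hI.der v)
      refine h3.congr_of_eventuallyEq (Eventually.of_forall fun y => ?_)
      simp [real_inner_comm]
    have h3 := h1.mul h2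
    refine h3.congr_fderiv ?_
    ext w
    simp [hI.left]
    ring

theorem bd : S_bd.{w} := by
  intro V _ _ _ _ _ D F Y ξ τ P lam vv Pi hM hI
  obtain ⟨CF, hCF0, hCF⟩ : ∃ C : ℝ, 0 ≤ C ∧ ∀ y, F y ≤ C := by
    have hK : IsCompact (closure D) := hM.Dbdd.isCompact_closure
    obtain ⟨C, hC⟩ := hK.bddAbove_image hM.Fcont.continuousOn
    refine ⟨max C 0, le_max_right _ _, fun y => ?_⟩
    by_cases hy : y ∈ D
    · exact le_max_of_le_left (hC ⟨y, subset_closure hy, rfl⟩)
    · rw [hM.Fzero y hy]; exact le_max_right _ _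
  obtain ⟨CS, hCS⟩ := hM.svol
  obtain ⟨c, hc, hP⟩ := hM.Plow
  have hnn : ∀ v : V, 0 < nn v := fun v => Real.sqrt_pos.2 (by positivity)
  have hlam := hM.lpos
  have hSD : ∀ v, Sv F τ v ⊆ D := by
    intro v y hy
    by_contra h
    have h1 : 0 < F y - (τ v - inner ℝ v y) ^ 2 := hy
    rw [hM.Fzero y h] at h1
    nlinarith [sq_nonneg (τ v - inner ℝ v y)]
  have hA : ∀ v, ξ v * nn v ≤ CF * CS / (2 * lam) := by
    intro v
    have hfin : volume (Sv F τ v) < ∞ :=
      lt_of_le_of_lt (measure_mono (hSD v)) hM.Dbdd.measure_lt_top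
    have h1 := norm_setIntegral_le_of_norm_le_const (f := fun y => Wf F τ v y) (C := CF) hfin
      (by
        intro y hy
        have h2 : 0 < Wf F τ v y := hy
        rw [Real.norm_of_nonneg h2.le]
        unfold Wf
        nlinarith [sq_nonneg (τ v - inner ℝ v y), hCF y])
    rw [← hM.mom v] at h1
    have h2 : 2 * lam * ξ v ≤ CF * (volume (Sv F τ v)).toReal :=
      (le_abs_self _).trans h1
    have h3 := hCS v
    rw [le_div_iff₀ (by positivity)]
    have h4 := mul_le_mul_of_nonneg_right h2 (hnn v).le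
    have h5 := mul_le_mul_of_nonneg_left h3 hCF0
    nlinarith
  have hA0 : 0 ≤ CF * CS / (2 * lam) :=
    (mul_nonneg (hM.xpos 0).le (hnn 0).le).trans (hA 0)
  have hPi : ∀ v, ‖Pi v‖ ≤ nn v ^ 3 / c := by
    intro v
    have h3 : 0 < nn v ^ 3 := by have := hnn v; positivity
    refine ContinuousLinearMap.opNorm_le_bound _ (by positivity) fun w => ?_
    have h1 := hP v (Pi v w)
    rw [hI.PPi] at h1
    have h2 := real_inner_le_norm (Pi v w) w
    rcases (norm_nonneg (Pi v w)).eq_or_lt with h0 | h0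
    · rw [← h0]; positivity
    · rw [div_mul_eq_mul_div, le_div_iff₀ hc]
      have h4 : (c * ‖Pi v w‖) * ‖Pi v w‖ ≤ (nn v ^ 3 * ‖w‖) * ‖Pi v w‖ := by
        calc (c * ‖Pi v w‖) * ‖Pi v w‖ = c * ‖Pi v w‖ ^ 2 := by ring
          _ ≤ _ := h1
          _ ≤ nn v ^ 3 * (‖Pi v w‖ * ‖w‖) := mul_le_mul_of_nonneg_left h2 h3.le
          _ = _ := by ring
      have h5 := le_of_mul_le_mul_right h4 h0
      linarith
  set A := CF * CS / (2 * lam) with hAdef
  refine ⟨A + A ^ 3 / c + CF + 1, by positivity, fun v => ?_, fun v => ?_, fun v => ?_⟩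
  · have h1 : 0 ≤ A ^ 3 / c := by positivity
    linarith [hA v]
  · have h1 : ξ v ^ 3 * ‖Pi v‖ ≤ A ^ 3 / c := by
      have h0 := hM.xpos v
      calc ξ v ^ 3 * ‖Pi v‖ ≤ ξ v ^ 3 * (nn v ^ 3 / c) :=
            mul_le_mul_of_nonneg_left (hPi v) (by positivity)
        _ = (ξ v * nn v) ^ 3 / c := by ring
        _ ≤ A ^ 3 / c := by
            have := hnn v
            gcongr
            exact hA v
    linarith
  · have h1 : 0 ≤ A ^ 3 / c := by positivity
    linarith [hCF v]

end Pool.Agent.Helper56.MI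

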